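import Pool.Agent.H82.EUC.Stmts

/-! Row MET of the board euc (MP_d7577e_lc). -/

set_option autoImplicit false

namespace Pool.EUC

namespace METx

variable {A : Type}

/-- The better partner of the man `m`. -/
noncomputable def r (dM : A → A → ℝ) (σ τ : Equiv.Perm A) (m : A) : A :=
  if dM m (σ m) ≤ dM m (τ m) then σ m else τ m

theorem r_cases (dM : A → A → ℝ) (σ τ : Equiv.Perm A) (m : A) :
    (r dM σ τ m = σ m ∧ dM m (σ m) ≤ dM m (τ m)) ∨
      (r dM σ τ m = τ m ∧ dM m (τ m) < dM m (σ m)) := by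
  unfold r
  by_cases h : dM m (σ m) ≤ dM m (τ m)
  · left; exact ⟨if_pos h, h⟩
  · right; exact ⟨if_neg h, lt_of_not_ge h⟩

theorem dM_r (dM : A → A → ℝ) (σ τ : Equiv.Perm A) (m : A) :
    dM m (r dM σ τ m) = min (dM m (σ m)) (dM m (τ m)) := by
  rcases r_cases dM σ τ m with ⟨h1, h2⟩ | ⟨h1, h2⟩
  · rw [h1, min_eq_left h2]
  · rw [h1, min_eq_right h2.le]

theorem key (dM dW : A → A → ℝ) (τ : Equiv.Perm A) (hτ : Stb dM dW τ) (m w : A)
    (h : dM m w < dM m (τ m)) : dW w (τ.symm w) ≤ dW w m := by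
  by_contra h2
  exact hτ m w ⟨h, lt_of_not_ge h2⟩

/-- the weak form: `m` weakly prefers `w` -/
theorem key' (dM dW : A → A → ℝ) (hM : Inj dM) (τ : Equiv.Perm A) (hτ : Stb dM dW τ) (m w : A)
    (h : dM m w ≤ dM m (τ m)) : dW w (τ.symm w) ≤ dW w m := by
  rcases h.lt_or_eq with h | h
  · exact key dM dW τ hτ m w h
  · have h1 : w = τ m := hM m h
    rw [h1, Equiv.symm_apply_apply]

theorem inj_r (dM dW : A → A → ℝ) (hM : Inj dM) (hW : Inj dW) (σ τ : Equiv.Perm A)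
    (hσ : Stb dM dW σ) (hτ : Stb dM dW τ) : Function.Injective (r dM σ τ) := by
  have mixed : ∀ m m', σ m = τ m' → dM m (σ m) ≤ dM m (τ m) → dM m' (τ m') < dM m' (σ m') →
      m = m' := by
    intro m m' he h1 h2
    have h3 := key' dM dW hM τ hτ m (σ m) h1
    have h4 := key' dM dW hM σ hσ m' (τ m') h2.le
    rw [he, Equiv.symm_apply_apply] at h3
    rw [← he, Equiv.symm_apply_apply, he] at h4
    exact hW (τ m') (le_antisymm h4 h3)
  intro m m' h
  rcases r_cases dM σ τ m with ⟨h1, h2⟩ | ⟨h1, h2⟩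
  · rcases r_cases dM σ τ m' with ⟨h3, h4⟩ | ⟨h3, h4⟩
    · rw [h1, h3] at h
      exact σ.injective h
    · rw [h1, h3] at h
      exact mixed m m' h h2 h4
  · rcases r_cases dM σ τ m' with ⟨h3, h4⟩ | ⟨h3, h4⟩
    · rw [h1, h3] at h
      exact (mixed m' m h.symm h4 h2).symm
    · rw [h1, h3] at h
      exact τ.injective h

end METx

theorem met_thm : MET_S := by
  intro A _ dM dW hM hW σ τ hσ hτ
  have hinj := METx.inj_r dM dW hM hW σ τ hσ hτ
  have hbij : Function.Bijective (METx.r dM σ τ) := Finite.injective_iff_bijective.1 hinj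
  let ρ : Equiv.Perm A := Equiv.ofBijective (METx.r dM σ τ) hbij
  have hρ : ∀ m, ρ m = METx.r dM σ τ m := fun m => rfl
  have hmen : ∀ m, dM m (ρ m) = min (dM m (σ m)) (dM m (τ m)) := by
    intro m
    rw [hρ]
    exact METx.dM_r dM σ τ m
  have hwom : ∀ w, dW w (ρ.symm w) = max (dW w (σ.symm w)) (dW w (τ.symm w)) := by
    intro w
    obtain ⟨m, rfl⟩ := ρ.surjective w
    rw [Equiv.symm_apply_apply]
    rcases METx.r_cases dM σ τ m with ⟨h1, h2⟩ | ⟨h1, h2⟩
    · rw [hρ, h1, Equiv.symm_apply_apply]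
      exact (max_eq_left (METx.key' dM dW hM τ hτ m (σ m) h2)).symm
    · rw [hρ, h1, Equiv.symm_apply_apply]
      exact (max_eq_right (METx.key' dM dW hM σ hσ m (τ m) h2.le)).symm
  refine ⟨ρ, ?_, hwom, hmen⟩
  rintro m w ⟨h1, h2⟩
  rw [hmen, lt_min_iff] at h1
  rw [hwom, lt_max_iff] at h2
  rcases h2 with h2 | h2
  · exact hσ m w ⟨h1.1, h2⟩
  · exact hτ m w ⟨h1.2, h2⟩

end Pool.EUC
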